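import Mathlib

/-!
The classes of integers whose abundancy values are shown to be decidable.
-/

set_option autoImplicit false

namespace Pool.AbDec

/-- `Tame L r m`: some entry `q` of the list `L` divides `m`, and `r` is not congruent to `1`
modulo any earlier entry of `L` other than `2`. -/
def Tame (L : List ℕ) (r m : ℕ) : Prop :=
  ∃ i < L.length, L.getD i 0 ∣ m ∧ ∀ j < i, L.getD j 0 = 2 ∨ ¬ L.getD j 0 ∣ r - 1

instance (L : List ℕ) (r m : ℕ) : Decidable (Tame L r m) := by
  unfold Tame; infer_instance

/-- The class of positive integers `n` attached to a list `L` of primes and to bounds `E`, `K`: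
the exponent in `n` of each prime of `L`, and of each prime congruent to `1` modulo a prime of `L`
other than `2`, is at most `E`; and all but at most `K` of the prime divisors `r` of `n`
are such that `Tame L r (e + 1)`, where `e` is the exponent of `r` in `n`. -/
structure Cls (L : List ℕ) (E K n : ℕ) : Prop where
  pos : 0 < n
  primes : ∀ q ∈ L, q.Prime
  bdd : ∀ p, p.Prime → (p ∈ L ∨ ∃ q ∈ L, q ≠ 2 ∧ q ∣ p - 1) → n.factorization p ≤ E
  few : (n.primeFactors.filter (fun r => ¬ Tame L r (n.factorization r + 1))).card ≤ K

end Pool.AbDec
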