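import Mathlib
import Pool.Agent.Lib.MP_d1482d_nt.Defs

/-!
Primitive recursiveness of the predicates involved.
-/

set_option autoImplicit false

open ArithmeticFunction

namespace Pool.AbDec

theorem pr_exists_lt {β : Type*} [Primcodable β] {R : ℕ → β → Prop} (hf : PrimrecRel R) :
    PrimrecRel (fun (n : ℕ) (y : β) => ∃ x < n, R x y) :=
  (hf.exists_mem_list.comp (Primrec.list_range.comp Primrec.fst) Primrec.snd).of_eq (by simp)

theorem pr_forall_lt {β : Type*} [Primcodable β] {R : ℕ → β → Prop} (hf : PrimrecRel R) :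
    PrimrecRel (fun (n : ℕ) (y : β) => ∀ x < n, R x y) :=
  (hf.forall_mem_list.comp (Primrec.list_range.comp Primrec.fst) Primrec.snd).of_eq (by simp)

theorem pr_dvd : PrimrecRel (fun a b : ℕ => a ∣ b) :=
  (Primrec.eq.comp (Primrec.nat_mod.comp Primrec.snd Primrec.fst) (Primrec.const 0)).of_eq
    fun _ => (Nat.dvd_iff_mod_eq_zero).symm

theorem pr_prime : PrimrecPred Nat.Prime := by
  have h1 : PrimrecRel (fun m p : ℕ => ¬ m ∣ p ∨ m = 1) := by
    refine PrimrecPred.or ?_ ?_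
    · exact PrimrecPred.not (pr_dvd.comp Primrec.fst Primrec.snd)
    · exact Primrec.eq.comp Primrec.fst (Primrec.const 1)
  have h2 : PrimrecPred (fun p : ℕ => ∀ m < p, (¬ m ∣ p ∨ m = 1)) :=
    (pr_forall_lt h1).comp Primrec.id Primrec.id
  have h3 : PrimrecPred (fun p : ℕ => 2 ≤ p) := Primrec.nat_le.comp (Primrec.const 2) Primrec.id
  refine (h3.and h2).of_eq ?_
  intro p
  rw [Nat.prime_def_lt]
  refine and_congr_right fun _ => forall_congr' fun m => forall_congr' fun _ => ?_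
  tauto

theorem pr_pow : Primrec₂ (fun a b : ℕ => a ^ b) := by
  have h : Primrec₂ (fun (a : ℕ) (n : ℕ) =>
      (Nat.rec (motive := fun _ => ℕ) 1 (fun _ IH => IH * a) n : ℕ)) := by
    refine Primrec.nat_rec (f := fun _ => 1) (g := fun a (y : ℕ × ℕ) => y.2 * a)
      (Primrec.const 1) ?_
    exact Primrec.nat_mul.comp (Primrec.snd.comp Primrec.snd) Primrec.fst
  refine h.of_eq ?_
  intro a n
  induction n with
  | zero => rfl
  | succ n ih => rw [pow_succ, ← ih]

/-- The exponent of `p` in `n`, by bounded search. -/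
def vv (p n : ℕ) : ℕ := Nat.findGreatest (fun e => p ^ e ∣ n) n

theorem pr_vv : Primrec₂ vv := by
  have h : PrimrecRel (fun (x : ℕ × ℕ) (e : ℕ) => x.1 ^ e ∣ x.2) :=
    pr_dvd.comp (pr_pow.comp (Primrec.fst.comp Primrec.fst) Primrec.snd)
      (Primrec.snd.comp Primrec.fst)
  exact Primrec.nat_findGreatest (f := fun x : ℕ × ℕ => x.2)
    (p := fun (x : ℕ × ℕ) (e : ℕ) => x.1 ^ e ∣ x.2) Primrec.snd h

theorem vv_eq {p n : ℕ} (hp : p.Prime) (hn : 0 < n) : vv p n = n.factorization p := by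
  unfold vv
  rw [Nat.findGreatest_eq_iff]
  refine ⟨(Nat.factorization_lt p hn.ne').le, fun _ => Nat.ordProj_dvd n p, ?_⟩
  intro e he _ hd
  rw [hp.pow_dvd_iff_le_factorization hn.ne'] at hd
  omega

theorem pr_tame : PrimrecPred (fun y : List ℕ × ℕ × ℕ => Tame y.1 y.2.1 y.2.2) := by
  have h1 : PrimrecRel (fun (j : ℕ) (y : List ℕ × ℕ) =>
      y.1.getD j 0 = 2 ∨ ¬ y.1.getD j 0 ∣ y.2 - 1) := by
    have h0 : Primrec (fun x : ℕ × List ℕ × ℕ => x.2.1.getD x.1 0) :=
      (Primrec.list_getD 0).comp (Primrec.fst.comp Primrec.snd) Primrec.fst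
    refine PrimrecPred.or ?_ ?_
    · exact Primrec.eq.comp h0 (Primrec.const 2)
    · refine PrimrecPred.not ?_
      exact pr_dvd.comp h0
        (Primrec.nat_sub.comp (Primrec.snd.comp Primrec.snd) (Primrec.const 1))
  have h2 := pr_forall_lt h1
  have h3 : PrimrecRel (fun (i : ℕ) (y : List ℕ × ℕ × ℕ) =>
      y.1.getD i 0 ∣ y.2.2 ∧ ∀ j < i, (y.1.getD j 0 = 2 ∨ ¬ y.1.getD j 0 ∣ y.2.1 - 1)) := by
    refine PrimrecPred.and ?_ ?_
    · exact pr_dvd.comp ((Primrec.list_getD 0).comp (Primrec.fst.comp Primrec.snd) Primrec.fst)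
        (Primrec.snd.comp (Primrec.snd.comp Primrec.snd))
    · exact h2.comp Primrec.fst (Primrec.pair (Primrec.fst.comp Primrec.snd)
        (Primrec.fst.comp (Primrec.snd.comp Primrec.snd)))
  have h4 := pr_exists_lt h3
  exact h4.comp (Primrec.list_length.comp Primrec.fst) Primrec.id

/-- The sum of the divisors, by recursion. -/
def sg (n : ℕ) : ℕ := Nat.rec (motive := fun _ => ℕ) 0
  (fun d IH => IH + (if (d + 1) ∣ n then d + 1 else 0)) n

theorem pr_sg : Primrec sg := by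
  have h : Primrec₂ (fun (n : ℕ) (k : ℕ) => (Nat.rec (motive := fun _ => ℕ) 0
      (fun d IH => IH + (if (d + 1) ∣ n then d + 1 else 0)) k : ℕ)) := by
    refine Primrec.nat_rec (f := fun _ => 0)
      (g := fun n (y : ℕ × ℕ) => y.2 + (if (y.1 + 1) ∣ n then y.1 + 1 else 0))
      (Primrec.const 0) ?_
    refine Primrec.nat_add.comp (Primrec.snd.comp Primrec.snd) ?_
    refine Primrec.ite ?_ ?_ (Primrec.const 0)
    · exact pr_dvd.comp (Primrec.succ.comp (Primrec.fst.comp Primrec.snd)) Primrec.fst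
    · exact Primrec.succ.comp (Primrec.fst.comp Primrec.snd)
  exact h.comp Primrec.id Primrec.id

theorem sg_eq (n : ℕ) : sg n = sigma 1 n := by
  have h : ∀ k, (Nat.rec (motive := fun _ => ℕ) 0
      (fun d IH => IH + (if (d + 1) ∣ n then d + 1 else 0)) k : ℕ) =
      ∑ d ∈ Finset.range k, (if (d + 1) ∣ n then d + 1 else 0) := by
    intro k
    induction k with
    | zero => rfl
    | succ k ih => rw [Finset.sum_range_succ, ← ih]
  unfold sg
  rw [h, sigma_one_apply, Nat.divisors, Finset.sum_filter, Finset.sum_Ico_eq_sum_range]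
  simp only [Nat.add_sub_cancel]
  apply Finset.sum_congr rfl
  intro x _
  rw [add_comm]

theorem few_eq (L : List ℕ) (n : ℕ) (hn : 0 < n) :
    (n.primeFactors.filter (fun r => ¬ Tame L r (n.factorization r + 1))).card =
    ((List.range (n + 1)).filter
      (fun r => decide (r.Prime ∧ r ∣ n ∧ ¬ Tame L r (vv r n + 1)))).length := by
  have h1 : n.primeFactors.filter (fun r => ¬ Tame L r (n.factorization r + 1)) =
      (Finset.range (n + 1)).filter (fun r => r.Prime ∧ r ∣ n ∧ ¬ Tame L r (vv r n + 1)) := by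
    ext r
    simp only [Finset.mem_filter, Nat.mem_primeFactors, Finset.mem_range]
    constructor
    · rintro ⟨⟨h1, h2, h3⟩, h4⟩
      refine ⟨Nat.lt_succ_of_le (Nat.le_of_dvd hn h2), h1, h2, ?_⟩
      rwa [vv_eq h1 hn]
    · rintro ⟨h1, h2, h3, h4⟩
      refine ⟨⟨h2, h3, hn.ne'⟩, ?_⟩
      rwa [vv_eq h2 hn] at h4
  rw [h1]
  rfl

theorem bdd_iff (L : List ℕ) (E n : ℕ) (hn : 0 < n) :
    (∀ p, p.Prime → (p ∈ L ∨ ∃ q ∈ L, q ≠ 2 ∧ q ∣ p - 1) → n.factorization p ≤ E) ↔
    ∀ p < n + 1, (¬ p.Prime ∨ ¬ ((∃ q ∈ L, q = p) ∨ ∃ q ∈ L, q ≠ 2 ∧ q ∣ p - 1)) ∨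
      vv p n ≤ E := by
  constructor
  · intro h p _
    by_cases hp : p.Prime
    · by_cases h2 : (∃ q ∈ L, q = p) ∨ ∃ q ∈ L, q ≠ 2 ∧ q ∣ p - 1
      · right
        rw [vv_eq hp hn]
        apply h p hp
        rcases h2 with ⟨q, hq, rfl⟩ | h2
        · exact Or.inl hq
        · exact Or.inr h2
      · exact Or.inl (Or.inr h2)
    · exact Or.inl (Or.inl hp)
  · intro h p hp h2
    by_cases hpn : p < n + 1
    · rcases h p hpn with (h3 | h3) | h3
      · exact absurd hp h3
      · exfalso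
        apply h3
        rcases h2 with h2 | h2
        · exact Or.inl ⟨p, h2, rfl⟩
        · exact Or.inr h2
      · rwa [vv_eq hp hn] at h3
    · rw [Nat.factorization_eq_zero_of_lt (by omega)]
      exact Nat.zero_le _

theorem pr_cls : PrimrecPred (fun y : List ℕ × ℕ × ℕ × ℕ => Cls y.1 y.2.1 y.2.2.1 y.2.2.2) := by
  -- component maps
  have pL : Primrec (fun y : List ℕ × ℕ × ℕ × ℕ => y.1) := Primrec.fst
  have pE : Primrec (fun y : List ℕ × ℕ × ℕ × ℕ => y.2.1) := Primrec.fst.comp Primrec.snd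
  have pK : Primrec (fun y : List ℕ × ℕ × ℕ × ℕ => y.2.2.1) :=
    Primrec.fst.comp (Primrec.snd.comp Primrec.snd)
  have pn : Primrec (fun y : List ℕ × ℕ × ℕ × ℕ => y.2.2.2) :=
    Primrec.snd.comp (Primrec.snd.comp Primrec.snd)
  have c1 : PrimrecPred (fun y : List ℕ × ℕ × ℕ × ℕ => 0 < y.2.2.2) :=
    Primrec.nat_lt.comp (Primrec.const 0) pn
  have c2 : PrimrecPred (fun y : List ℕ × ℕ × ℕ × ℕ => ∀ q ∈ y.1, q.Prime) :=
    (PrimrecPred.forall_mem_list pr_prime).comp pL
  -- the exponents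
  have c3 : PrimrecPred (fun y : List ℕ × ℕ × ℕ × ℕ =>
      ∀ p < y.2.2.2 + 1, (¬ p.Prime ∨ ¬ ((∃ q ∈ y.1, q = p) ∨ ∃ q ∈ y.1, q ≠ 2 ∧ q ∣ p - 1)) ∨
      vv p y.2.2.2 ≤ y.2.1) := by
    have e1 : PrimrecRel (fun (q p : ℕ) => q = p) := Primrec.eq
    have e2 : PrimrecRel (fun (q p : ℕ) => q ≠ 2 ∧ q ∣ p - 1) := by
      refine PrimrecPred.and ?_ ?_
      · exact PrimrecPred.not (Primrec.eq.comp Primrec.fst (Primrec.const 2))
      · exact pr_dvd.comp Primrec.fst (Primrec.nat_sub.comp Primrec.snd (Primrec.const 1))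
    have e3 := PrimrecRel.exists_mem_list e1
    have e4 := PrimrecRel.exists_mem_list e2
    have e5 : PrimrecRel (fun (p : ℕ) (y : List ℕ × ℕ × ℕ × ℕ) =>
        (¬ p.Prime ∨ ¬ ((∃ q ∈ y.1, q = p) ∨ ∃ q ∈ y.1, q ≠ 2 ∧ q ∣ p - 1)) ∨
        vv p y.2.2.2 ≤ y.2.1) := by
      refine PrimrecPred.or (PrimrecPred.or ?_ ?_) ?_
      · exact PrimrecPred.not (pr_prime.comp Primrec.fst)
      · refine PrimrecPred.not (PrimrecPred.or ?_ ?_)
        · exact e3.comp (pL.comp Primrec.snd) Primrec.fst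
        · exact e4.comp (pL.comp Primrec.snd) Primrec.fst
      · exact Primrec.nat_le.comp (pr_vv.comp Primrec.fst (pn.comp Primrec.snd))
          (pE.comp Primrec.snd)
    exact (pr_forall_lt e5).comp (Primrec.succ.comp pn) Primrec.id
  have c4 : PrimrecPred (fun y : List ℕ × ℕ × ℕ × ℕ =>
      ((List.range (y.2.2.2 + 1)).filter
        (fun r => decide (r.Prime ∧ r ∣ y.2.2.2 ∧ ¬ Tame y.1 r (vv r y.2.2.2 + 1)))).length
        ≤ y.2.2.1) := by
    have e1 : PrimrecRel (fun (r : ℕ) (y : List ℕ × ℕ × ℕ × ℕ) =>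
        r.Prime ∧ r ∣ y.2.2.2 ∧ ¬ Tame y.1 r (vv r y.2.2.2 + 1)) := by
      refine PrimrecPred.and ?_ (PrimrecPred.and ?_ (PrimrecPred.not ?_))
      · exact pr_prime.comp Primrec.fst
      · exact pr_dvd.comp Primrec.fst (pn.comp Primrec.snd)
      · exact pr_tame.comp (Primrec.pair (pL.comp Primrec.snd) (Primrec.pair Primrec.fst
          (Primrec.succ.comp (pr_vv.comp Primrec.fst (pn.comp Primrec.snd)))))
    have e2 := PrimrecRel.listFilter e1
    have e3 : Primrec (fun y : List ℕ × ℕ × ℕ × ℕ =>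
        (List.range (y.2.2.2 + 1)).filter
        (fun r => decide (r.Prime ∧ r ∣ y.2.2.2 ∧ ¬ Tame y.1 r (vv r y.2.2.2 + 1)))) :=
      e2.comp (Primrec.list_range.comp (Primrec.succ.comp pn)) Primrec.id
    exact Primrec.nat_le.comp (Primrec.list_length.comp e3) pK
  refine (((c1.and c2).and c3).and c4).of_eq ?_
  intro y
  constructor
  · rintro ⟨⟨⟨h1, h2⟩, h3⟩, h4⟩
    refine ⟨h1, h2, (bdd_iff _ _ _ h1).mpr h3, ?_⟩
    rw [few_eq _ _ h1]
    exact h4
  · rintro ⟨h1, h2, h3, h4⟩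
    refine ⟨⟨⟨h1, h2⟩, (bdd_iff _ _ _ h1).mp h3⟩, ?_⟩
    rw [few_eq _ _ h1] at h4
    exact h4

/-- Bounded search over a computable relation. -/
theorem cp_exists_lt {α : Type*} [Primcodable α] {R : α → ℕ → Prop} {B : α → ℕ}
    (hR : ComputablePred (fun x : α × ℕ => R x.1 x.2)) (hB : Computable B) :
    ComputablePred (fun a : α => ∃ n < B a, R a n) := by
  rw [ComputablePred.computable_iff] at hR
  obtain ⟨f, hf, hfe⟩ := hR
  have hfe' : ∀ a n, R a n ↔ f (a, n) = true := by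
    intro a n
    have := congrFun hfe (a, n)
    simp only [eq_iff_iff] at this
    exact this
  rw [ComputablePred.computable_iff]
  refine ⟨fun a => Nat.rec (motive := fun _ => Bool) false
    (fun n IH => (IH || f (a, n))) (B a), ?_, ?_⟩
  · refine Computable.nat_rec (f := B) (g := fun _ => false)
      (h := fun a (y : ℕ × Bool) => (y.2 || f (a, y.1))) hB (Computable.const false) ?_
    refine Primrec.or.to_comp.comp (Computable.snd.comp Computable.snd) ?_
    exact hf.comp (Computable.pair Computable.fst (Computable.fst.comp Computable.snd))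
  · funext a
    have h : ∀ k, (∃ n < k, R a n) ↔ (Nat.rec (motive := fun _ => Bool) false
        (fun n IH => (IH || f (a, n))) k : Bool) = true := by
      intro k
      induction k with
      | zero => simp
      | succ k ih =>
        rw [Bool.or_eq_true, ← ih, ← hfe']
        constructor
        · rintro ⟨n, hn, h⟩
          rcases Nat.lt_succ_iff_lt_or_eq.mp hn with h1 | h1
          · exact Or.inl ⟨n, h1, h⟩
          · subst h1; exact Or.inr h
        · rintro (⟨n, hn, h⟩ | h)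
          · exact ⟨n, by omega, h⟩
          · exact ⟨k, by omega, h⟩
    exact propext (h (B a))

end Pool.AbDec
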