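import Mathlib

/-!
An explicit bound for odd `m` with `σ(m) / m = c / b` and at most `k` prime factors.
-/

set_option autoImplicit false

open Finset

namespace Pool.AbDec

theorem pow_aux (k p w : ℕ) (hk : 0 < k) (hw : 0 < w) (hp : 2 * k * w ≤ p - 1) :
    ((p : ℝ) / (p - 1)) ^ k ≤ 1 + 1 / w := by
  have hw1 : (1 : ℝ) ≤ w := by exact_mod_cast hw
  have hk1 : (1 : ℝ) ≤ k := by exact_mod_cast hk
  have hp1 : 1 ≤ p := by
    have : 0 < 2 * k * w := by positivity
    omega
  have hpr : (2 : ℝ) * k * w ≤ (p : ℝ) - 1 := by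
    have h : ((2 * k * w : ℕ) : ℝ) ≤ ((p - 1 : ℕ) : ℝ) := by exact_mod_cast hp
    rw [Nat.cast_sub hp1] at h
    push_cast at h
    exact h
  have hkw : (0 : ℝ) < 2 * k * w := by positivity
  have hpos : (0 : ℝ) < (p : ℝ) - 1 := lt_of_lt_of_le hkw hpr
  set x : ℝ := 1 / ((p : ℝ) - 1) with hx
  have hx0 : 0 < x := by positivity
  have hkx : k * x ≤ 1 / (2 * w) := by
    rw [hx, mul_one_div, div_le_div_iff₀ hpos (by positivity)]
    nlinarith
  have e1 : (p : ℝ) / (p - 1) = 1 + x := by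
    rw [hx]; field_simp; ring
  have hx1 : x ≤ 1 := by
    have : (1 : ℝ) / (2 * w) ≤ 1 := by
      rw [div_le_one (by positivity)]; linarith
    nlinarith
  have h1 : 1 + (k : ℝ) * (-x) ≤ (1 + (-x)) ^ k := one_add_mul_le_pow (by linarith) k
  have h2 : (1 + x) ^ k * (1 + (-x)) ^ k ≤ 1 := by
    rw [← mul_pow]
    apply pow_le_one₀
    · nlinarith
    · nlinarith
  have h3 : (0 : ℝ) ≤ (1 + x) ^ k := by positivity
  have h4 : (1 + x) ^ k * (1 - 1 / (2 * w)) ≤ 1 := by
    have h5 : 1 - 1 / (2 * (w : ℝ)) ≤ (1 + (-x)) ^ k := by linarith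
    exact (mul_le_mul_of_nonneg_left h5 h3).trans h2
  rw [e1]
  have hy : (0 : ℝ) < 1 - 1 / (2 * w) := by
    have : (1 : ℝ) / (2 * w) < 1 := by
      rw [div_lt_one (by positivity)]; linarith
    linarith
  have h6 : (1 : ℝ) ≤ (1 + 1 / w) * (1 - 1 / (2 * w)) := by
    have h7 : (1 + 1 / (w : ℝ)) * (1 - 1 / (2 * w)) - 1 = (w - 1) / (2 * w ^ 2) := by
      field_simp; ring
    have h8 : (0 : ℝ) ≤ (w - 1) / (2 * (w : ℝ) ^ 2) := by
      apply div_nonneg
      · linarith
      · positivity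
    linarith
  exact le_of_mul_le_mul_right (h4.trans h6) hy

theorem grow (k b c z : ℕ) (P : Finset ℕ) (hP : ∀ p ∈ P, p.Prime ∧ Odd p) (hk : P.card ≤ k)
    (hb : Odd b) (hz : z = 2 * k * b + 1)
    (hlt : c * ∏ p ∈ P, (p - 1) < b * ∏ p ∈ P, p) :
    ∀ (d : ℕ) (Q : Finset ℕ), Q ⊆ P → (P \ Q).card = d →
      b * ∏ p ∈ Q, p < c * ∏ p ∈ Q, (p - 1) →
      ∃ Q' : Finset ℕ, Q' ⊆ P ∧ c * ∏ p ∈ Q', (p - 1) < b * ∏ p ∈ Q', p ∧
        z * ∏ p ∈ Q', p ≤ (z * ∏ p ∈ Q, p) ^ (2 ^ d) := by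
  intro d
  induction d with
  | zero =>
    intro Q hQ hd hu
    have : P \ Q = ∅ := card_eq_zero.mp hd
    have h2 : P = Q := Subset.antisymm (sdiff_eq_empty_iff_subset.mp this) hQ
    subst h2
    omega
  | succ d ih =>
    intro Q hQ hd hu
    have hne : (P \ Q).Nonempty := by
      rw [← card_pos]; omega
    obtain ⟨p, hp⟩ : ∃ p, p = (P \ Q).min' hne := ⟨_, rfl⟩
    have hpm : p ∈ P \ Q := hp ▸ min'_mem _ hne
    have hpP : p ∈ P := (mem_sdiff.mp hpm).1
    have hpQ : p ∉ Q := (mem_sdiff.mp hpm).2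
    have hmin : ∀ p' ∈ P \ Q, p ≤ p' := fun p' h => hp ▸ min'_le _ _ h
    obtain ⟨hpp, hpo⟩ := hP p hpP
    set u := ∏ p ∈ Q, p with hudef
    set v := ∏ p ∈ Q, (p - 1) with hvdef
    have hupos : 0 < u := prod_pos fun p' h => (hP p' (hQ h)).1.pos
    have hvpos : 0 < v := prod_pos fun p' h => Nat.sub_pos_of_lt (hP p' (hQ h)).1.one_lt
    have hbpos : 0 < b := hb.pos
    have hkpos : 0 < k := lt_of_lt_of_le (card_pos.mpr ⟨p, hpP⟩) hk
    -- the bound for p
    have hple : p ≤ 2 * k * (b * u) := by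
      by_contra hcon
      push Not at hcon
      have hp' : 2 * k * (b * u) ≤ p - 1 := by omega
      have h1 := pow_aux k p (b * u) hkpos (Nat.mul_pos hbpos hupos) hp'
      have hp1 : (1 : ℝ) < p := by exact_mod_cast hpp.one_lt
      have hsplitu : ∏ p ∈ P, p = (∏ p ∈ P \ Q, p) * u := by
        rw [hudef, prod_sdiff hQ]
      have hsplitv : ∏ p ∈ P, (p - 1) = (∏ p ∈ P \ Q, (p - 1)) * v := by
        rw [hvdef, prod_sdiff hQ]
      -- product of p'/(p'-1)
      have h2 : ∏ p' ∈ P \ Q, ((p' : ℝ) / (p' - 1)) ≤ ((p : ℝ) / (p - 1)) ^ (P \ Q).card := by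
        rw [← prod_const]
        apply prod_le_prod
        · intro p' hp'
          have h3 : p ≤ p' := hmin p' hp'
          have h4 : (p : ℝ) ≤ p' := by exact_mod_cast h3
          exact div_nonneg (by linarith) (by linarith)
        · intro p' hp'
          have h3 : p ≤ p' := hmin p' hp'
          have h4 : (p : ℝ) ≤ p' := by exact_mod_cast h3
          rw [div_le_div_iff₀ (by linarith) (by linarith)]
          nlinarith
      have h5 : ((p : ℝ) / (p - 1)) ^ (P \ Q).card ≤ ((p : ℝ) / (p - 1)) ^ k := by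
        apply pow_le_pow_right₀
        · rw [le_div_iff₀ (by linarith)]; linarith
        · exact (card_le_card sdiff_subset).trans hk
      have h6 : ∏ p' ∈ P \ Q, ((p' : ℝ) / (p' - 1)) =
          ((∏ p ∈ P \ Q, p : ℕ) : ℝ) / ((∏ p ∈ P \ Q, (p - 1) : ℕ) : ℝ) := by
        rw [prod_div_distrib, Nat.cast_prod, Nat.cast_prod]
        congr 1
        apply prod_congr rfl
        intro p' hp'
        have := (hP p' (mem_sdiff.mp hp').1).1.one_lt
        rw [Nat.cast_sub this.le, Nat.cast_one]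
      set U := ∏ p ∈ P \ Q, p
      set V := ∏ p ∈ P \ Q, (p - 1)
      have hVpos : 0 < V := prod_pos fun p' h =>
        Nat.sub_pos_of_lt (hP p' (mem_sdiff.mp h).1).1.one_lt
      have hVr : (0 : ℝ) < V := by exact_mod_cast hVpos
      have h7 : (U : ℝ) / V ≤ 1 + 1 / ((b * u : ℕ) : ℝ) := by
        rw [← h6]; exact (h2.trans h5).trans h1
      rw [hsplitu, hsplitv] at hlt
      have hbu : (0 : ℝ) < ((b * u : ℕ) : ℝ) := by exact_mod_cast Nat.mul_pos hbpos hupos
      rw [div_le_iff₀ hVr] at h7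
      have h8 : ((b * u : ℕ) : ℝ) * U ≤ (((b * u : ℕ) : ℝ) + 1) * V := by
        have h9 : ((b * u : ℕ) : ℝ) * ((1 + 1 / ((b * u : ℕ) : ℝ)) * V) =
          (((b * u : ℕ) : ℝ) + 1) * V := by field_simp
        rw [← h9]
        exact mul_le_mul_of_nonneg_left h7 hbu.le
      have h10 : (b * u) * U ≤ (b * u + 1) * V := by exact_mod_cast h8
      have h11 : (b * u + 1) * V ≤ (c * v) * V := Nat.mul_le_mul_right V (by omega)
      have h12 : c * (V * v) < b * (U * u) := hlt
      nlinarith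
    have hzu : p ≤ z * u := by
      rw [hz]
      nlinarith
    have hzu0 : 0 < z * u := Nat.mul_pos (by omega) hupos
    have hsq : z * (p * u) ≤ (z * u) ^ 2 := by
      calc z * (p * u) = p * (z * u) := by ring
        _ ≤ (z * u) * (z * u) := Nat.mul_le_mul_right _ hzu
        _ = (z * u) ^ 2 := by ring
    have hu1 : ∏ p ∈ insert p Q, p = p * u := prod_insert hpQ
    have hv1 : ∏ p ∈ insert p Q, (p - 1) = (p - 1) * v := prod_insert hpQ
    have hsub : insert p Q ⊆ P := insert_subset hpP hQ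
    rcases lt_trichotomy (b * (p * u)) (c * ((p - 1) * v)) with h | h | h
    · -- continue
      have hcard : (P \ insert p Q).card = d := by
        have h1 : P \ insert p Q = (P \ Q).erase p := by
          ext x; simp only [mem_sdiff, mem_insert, mem_erase]; tauto
        rw [h1, card_erase_of_mem hpm, hd]; omega
      obtain ⟨Q', h1, h2, h3⟩ := ih (insert p Q) hsub hcard (by rw [hu1, hv1]; exact h)
      refine ⟨Q', h1, h2, h3.trans ?_⟩
      rw [hu1]
      calc (z * (p * u)) ^ (2 ^ d) ≤ ((z * u) ^ 2) ^ (2 ^ d) := Nat.pow_le_pow_left hsq _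
        _ = (z * u) ^ (2 ^ (d + 1)) := by rw [← pow_mul]; congr 1; ring
    · exfalso
      have hodd : Odd (b * (p * u)) := by
        refine hb.mul (hpo.mul ?_)
        rw [hudef]
        exact Finset.prod_induction _ Odd (fun _ _ => Odd.mul) odd_one
          (fun p' h => (hP p' (hQ h)).2)
      have heven : Even (c * ((p - 1) * v)) := by
        refine Even.mul_left (Even.mul_right ?_ v) c
        obtain ⟨t, ht⟩ := hpo
        exact ⟨t, by omega⟩
      rw [h] at hodd
      exact (Nat.not_even_iff_odd.mpr hodd) heven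
    · refine ⟨insert p Q, hsub, by rw [hu1, hv1]; exact h, ?_⟩
      rw [hu1]
      refine hsq.trans (Nat.pow_le_pow_right hzu0 ?_)
      calc 2 = 2 ^ 1 := by norm_num
        _ ≤ 2 ^ (d + 1) := Nat.pow_le_pow_right (by norm_num) (by omega)

end Pool.AbDec
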