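import Mathlib
import Pool.Agent.Lib.MP_d1482d_nt.OddBound

/-!
The explicit bound for odd `m` with `b * σ(m) = c * m` and few prime factors.
-/

set_option autoImplicit false

open Finset ArithmeticFunction

namespace Pool.AbDec

theorem sig_pp {p : ℕ} (hp : p.Prime) (e : ℕ) :
    sigma 1 (p ^ e) * (p - 1) + 1 = p ^ (e + 1) := by
  rw [sigma_one_apply_prime_pow hp]
  obtain ⟨x, hx⟩ : ∃ x, p = x + 1 := ⟨p - 1, by have := hp.pos; omega⟩
  subst hx
  rw [Nat.add_sub_cancel]
  exact geom_sum_mul_add x (e + 1)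

theorem sig_prod {m : ℕ} (hm : m ≠ 0) :
    sigma 1 m = ∏ p ∈ m.primeFactors, sigma 1 (p ^ m.factorization p) := by
  rw [isMultiplicative_sigma.multiplicative_factorization _ hm]
  rfl

theorem self_prod {m : ℕ} (hm : m ≠ 0) :
    m = ∏ p ∈ m.primeFactors, p ^ m.factorization p := by
  conv_lhs => rw [← Nat.prod_factorization_pow_eq_self hm]
  rfl

/-- `σ(m) ∏ (p-1) < m ∏ p` for `m > 1`. -/
theorem sig_lt {m : ℕ} (hm : 1 < m) :
    sigma 1 m * ∏ p ∈ m.primeFactors, (p - 1) < m * ∏ p ∈ m.primeFactors, p := by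
  have hm0 : m ≠ 0 := by omega
  have h1 : m * ∏ p ∈ m.primeFactors, p =
      ∏ p ∈ m.primeFactors, p ^ (m.factorization p + 1) := by
    conv_lhs => rw [self_prod hm0]
    have h2 : ∀ q, (∏ p ∈ q, p ^ m.factorization p) * ∏ p ∈ q, p =
      ∏ p ∈ q, p ^ (m.factorization p + 1) := by
      intro q
      rw [← prod_mul_distrib]
      apply prod_congr rfl
      intro p _
      rw [pow_succ]
    rw [← self_prod hm0]
    conv_lhs => rw [self_prod hm0]
    rw [← self_prod hm0]
    have := h2 m.primeFactors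
    rw [← self_prod hm0] at this
    exact this
  rw [h1, sig_prod hm0, ← prod_mul_distrib]
  apply prod_lt_prod_of_nonempty
  · intro p hp
    have hpp := Nat.prime_of_mem_primeFactors hp
    apply Nat.mul_pos
    · exact sigma_pos 1 _ (pow_ne_zero _ hpp.ne_zero)
    · have := hpp.one_lt; omega
  · intro p hp
    have hpp := Nat.prime_of_mem_primeFactors hp
    have := sig_pp hpp (m.factorization p)
    omega
  · exact Nat.nonempty_primeFactors.mpr hm

theorem one_sub_le {ι : Type*} [DecidableEq ι] (x : ι → ℝ) (s : Finset ι)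
    (h0 : ∀ i ∈ s, 0 ≤ x i) (h1 : ∀ i ∈ s, x i ≤ 1) :
    1 - ∑ i ∈ s, x i ≤ ∏ i ∈ s, (1 - x i) ∧ 0 ≤ ∏ i ∈ s, (1 - x i) ∧
      ∏ i ∈ s, (1 - x i) ≤ 1 := by
  induction s using Finset.induction_on with
  | empty => simp
  | insert a s ha ih =>
    obtain ⟨i1, i2, i3⟩ := ih (fun i hi => h0 i (mem_insert_of_mem hi))
      (fun i hi => h1 i (mem_insert_of_mem hi))
    have a0 := h0 a (mem_insert_self a s)
    have a1 := h1 a (mem_insert_self a s)
    rw [sum_insert ha, prod_insert ha]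
    refine ⟨?_, ?_, ?_⟩
    · nlinarith
    · exact mul_nonneg (by linarith) i2
    · nlinarith

/-- Some prime of `Q` has a bounded power. -/
theorem pick (m k b c : ℕ) (Q : Finset ℕ) (hm : m ≠ 0) (hb : 0 < b) (hQ : Q ⊆ m.primeFactors)
    (hQne : Q.Nonempty) (hQk : Q.card ≤ k) (h : b * sigma 1 m = c * m)
    (hlt : c * ∏ p ∈ Q, (p - 1) < b * ∏ p ∈ Q, p) :
    ∃ p ∈ Q, p ^ (m.factorization p + 1) ≤ k * (b * ∏ p ∈ Q, p) := by
  by_contra hcon
  push Not at hcon
  have hprime : ∀ p ∈ m.primeFactors, p.Prime := fun p hp => Nat.prime_of_mem_primeFactors hp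
  set u := ∏ p ∈ Q, p with hu
  set v := ∏ p ∈ Q, (p - 1) with hv
  have hupos : 0 < u := prod_pos fun p hp => (hprime p (hQ hp)).pos
  have hvpos : 0 < v := prod_pos fun p hp => Nat.sub_pos_of_lt (hprime p (hQ hp)).one_lt
  have hur : (0 : ℝ) < u := by exact_mod_cast hupos
  have hvr : (0 : ℝ) < v := by exact_mod_cast hvpos
  have hbr : (0 : ℝ) < b := by exact_mod_cast hb
  have hmr : (0 : ℝ) < m := by exact_mod_cast Nat.pos_of_ne_zero hm
  have hkpos : 0 < k := lt_of_lt_of_le (card_pos.mpr hQne) hQk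
  have hkr : (0 : ℝ) < k := by exact_mod_cast hkpos
  -- local factors
  set g : ℕ → ℝ := fun p => (sigma 1 (p ^ m.factorization p) : ℝ) / (p ^ m.factorization p : ℕ)
    with hg
  set x : ℕ → ℝ := fun p => 1 / ((p ^ (m.factorization p + 1) : ℕ) : ℝ) with hx
  have hg1 : ∀ p ∈ m.primeFactors, 1 ≤ g p := by
    intro p hp
    have hpp := hprime p hp
    have h0 : (0 : ℝ) < ((p ^ m.factorization p : ℕ) : ℝ) := by
      exact_mod_cast pow_pos hpp.pos _
    rw [hg]
    simp only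
    rw [le_div_iff₀ h0, one_mul]
    have h2 : p ^ m.factorization p ≤ sigma 1 (p ^ m.factorization p) := by
      rw [sigma_one_apply]
      exact single_le_sum (f := fun d => d) (fun _ _ => Nat.zero_le _)
        (Nat.mem_divisors_self _ (pow_ne_zero _ hpp.ne_zero))
    exact_mod_cast h2
  have hg2 : ∀ p ∈ m.primeFactors, g p = ((p : ℝ) / ((p - 1 : ℕ) : ℝ)) * (1 - x p) := by
    intro p hp
    have hpp := hprime p hp
    have h3 := sig_pp hpp (m.factorization p)
    have h0 : ((p ^ m.factorization p : ℕ) : ℝ) ≠ 0 := by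
      exact_mod_cast (pow_pos hpp.pos _).ne'
    have h00 : ((p ^ (m.factorization p + 1) : ℕ) : ℝ) ≠ 0 := by
      exact_mod_cast (pow_pos hpp.pos _).ne'
    have h4 : ((p - 1 : ℕ) : ℝ) ≠ 0 := by
      have := hpp.one_lt
      exact_mod_cast (by omega : p - 1 ≠ 0)
    have h5 : (sigma 1 (p ^ m.factorization p) : ℝ) * ((p - 1 : ℕ) : ℝ) + 1 =
        ((p ^ (m.factorization p + 1) : ℕ) : ℝ) := by exact_mod_cast h3
    have h6 : ((p ^ (m.factorization p + 1) : ℕ) : ℝ) =
        (p : ℝ) * ((p ^ m.factorization p : ℕ) : ℝ) := by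
      rw [pow_succ]; push_cast; ring
    have hp0 : (p : ℝ) ≠ 0 := by exact_mod_cast hpp.ne_zero
    rw [hg, hx]
    simp only
    rw [h6, div_mul_eq_mul_div, div_eq_div_iff h0 h4]
    have h7 : (p : ℝ) * (1 - 1 / ((p : ℝ) * ((p ^ m.factorization p : ℕ) : ℝ))) *
        ((p ^ m.factorization p : ℕ) : ℝ) = (p : ℝ) * ((p ^ m.factorization p : ℕ) : ℝ) - 1 := by
      field_simp
    rw [h7]
    rw [h6] at h5
    linarith
  have hx0 : ∀ p ∈ Q, 0 ≤ x p := by
    intro p hp
    rw [hx]; positivity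
  have hxlt : ∀ p ∈ Q, x p < 1 / (k * (b * u)) := by
    intro p hp
    have h1 := hcon p hp
    have h2 : ((k * (b * u) : ℕ) : ℝ) < ((p ^ (m.factorization p + 1) : ℕ) : ℝ) := by
      exact_mod_cast h1
    push_cast at h2
    rw [hx]
    simp only
    push_cast
    exact one_div_lt_one_div_of_lt (by positivity) h2
  have hx1 : ∀ p ∈ Q, x p ≤ 1 := by
    intro p hp
    refine (hxlt p hp).le.trans ?_
    rw [div_le_one (by positivity)]
    have : 1 ≤ k * (b * u) := Nat.mul_pos hkpos (Nat.mul_pos hb hupos)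
    exact_mod_cast this
  have hsum : ∑ p ∈ Q, x p < 1 / (b * u) := by
    calc ∑ p ∈ Q, x p < ∑ p ∈ Q, (1 / (k * (b * u)) : ℝ) := sum_lt_sum_of_nonempty hQne hxlt
      _ = Q.card * (1 / (k * (b * u)) : ℝ) := by rw [sum_const, nsmul_eq_mul]
      _ ≤ k * (1 / (k * (b * u)) : ℝ) := by
          apply mul_le_mul_of_nonneg_right
          · exact_mod_cast hQk
          · positivity
      _ = 1 / (b * u) := by field_simp
  obtain ⟨o1, o2, o3⟩ := one_sub_le x Q hx0 hx1
  -- the product over Q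
  have hprodQ : ∏ p ∈ Q, g p = (u / v) * ∏ p ∈ Q, (1 - x p) := by
    rw [prod_congr rfl (fun p hp => hg2 p (hQ hp)), prod_mul_distrib, prod_div_distrib, hu, hv]
    push_cast
    rfl
  have hprodP : ∏ p ∈ m.primeFactors, g p = (c : ℝ) / b := by
    have h1 : ∏ p ∈ m.primeFactors, g p = (sigma 1 m : ℝ) / m := by
      rw [hg, prod_div_distrib, ← Nat.cast_prod, ← Nat.cast_prod, ← sig_prod hm, ← self_prod hm]
    rw [h1, div_eq_div_iff hmr.ne' hbr.ne']
    have : ((b * sigma 1 m : ℕ) : ℝ) = ((c * m : ℕ) : ℝ) := by rw [h]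
    push_cast at this
    linarith
  have hge : ∏ p ∈ Q, g p ≤ ∏ p ∈ m.primeFactors, g p := by
    rw [← prod_sdiff hQ]
    have h1 : 1 ≤ ∏ p ∈ m.primeFactors \ Q, g p := by
      have h2 : ∏ p ∈ m.primeFactors \ Q, (1 : ℝ) ≤ ∏ p ∈ m.primeFactors \ Q, g p :=
        prod_le_prod (fun _ _ => zero_le_one) (fun p hp => hg1 p (mem_sdiff.mp hp).1)
      rwa [prod_const_one] at h2
    have h3 : 0 ≤ ∏ p ∈ Q, g p :=
      prod_nonneg fun p hp => le_trans zero_le_one (hg1 p (hQ hp))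
    nlinarith
  have h8 : (u / v : ℝ) * (1 - 1 / (b * u)) < c / b := by
    rw [← hprodP]
    refine lt_of_lt_of_le ?_ hge
    rw [hprodQ]
    apply mul_lt_mul_of_pos_left _ (by positivity)
    linarith
  have h9 : (u / v : ℝ) * (1 - 1 / (b * u)) = (b * u - 1) / (b * v) := by
    field_simp
  rw [h9, div_lt_div_iff₀ (by positivity) hbr] at h8
  have h10 : (b * u - 1 : ℝ) < c * v := by
    have h11 : (b * u - 1 : ℝ) * b < (c * v) * b := by linarith
    exact lt_of_mul_lt_mul_right h11 hbr.le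
  have h12 : (c * v + 1 : ℝ) ≤ b * u := by exact_mod_cast hlt
  have h13 : (b * u : ℝ) < c * v + 1 := by linarith
  linarith

end Pool.AbDec
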