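import Mathlib
import Pool.Agent.Lib.MP_d1482d_nt.OddBound2

/-!
The explicit bound for odd `m` with `b * σ(m) = c * m` and few prime factors.
-/

set_option autoImplicit false

open Finset ArithmeticFunction

namespace Pool.AbDec

theorem sig_gt {m : ℕ} (hm : 1 < m) : m < sigma 1 m := by
  rw [sigma_one_apply, Nat.sum_divisors_eq_sum_properDivisors_add_self]
  have h1 : 0 < ∑ d ∈ m.properDivisors, d := by
    apply sum_pos'
    · intro i _; exact Nat.zero_le _
    · exact ⟨1, Nat.one_mem_properDivisors_iff_one_lt.mpr hm, one_pos⟩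
  omega

theorem odd_bound (k : ℕ) : ∀ (j m b c : ℕ), Odd m → 0 < b → m.primeFactors.card = j → j ≤ k →
    b * sigma 1 m = c * m → m ≤ (2 * k * b + 1) ^ ((2 ^ (k + 3)) ^ j) := by
  intro j
  induction j with
  | zero =>
    intro m b c hm hb hj _ h
    have h1 : m.primeFactors = ∅ := card_eq_zero.mp hj
    rw [Nat.primeFactors_eq_empty] at h1
    have hm1 : m = 1 := by
      rcases h1 with h0 | h1
      · subst h0; simp at hm
      · exact h1
    subst hm1
    exact Nat.one_le_pow _ _ (by omega)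
  | succ j ih =>
    intro m b c hm hb hj hjk h
    have hm0 : m ≠ 0 := by rintro rfl; simp at hm
    have hm1 : 1 < m := by
      by_contra hcon
      have : m = 1 := by omega
      subst this
      simp at hj
    obtain ⟨g, b1, c1, hg, hcop, hb1, hc1⟩ :
        ∃ g b1 c1 : ℕ, 0 < g ∧ Nat.Coprime b1 c1 ∧ b = b1 * g ∧ c = c1 * g := by
      obtain ⟨b1, c1, h1, h2, h3⟩ := Nat.exists_coprime b c
      exact ⟨Nat.gcd b c, b1, c1, Nat.gcd_pos_of_pos_left _ hb, h1, h2, h3⟩
    have hb1pos : 0 < b1 := by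
      rcases Nat.eq_zero_or_pos b1 with h0 | h0
      · subst h0; omega
      · exact h0
    have h' : b1 * sigma 1 m = c1 * m := by
      have : (b1 * sigma 1 m) * g = (c1 * m) * g := by
        calc (b1 * sigma 1 m) * g = (b1 * g) * sigma 1 m := by ring
          _ = (c1 * g) * m := by rw [← hb1, ← hc1, h]
          _ = (c1 * m) * g := by ring
      exact Nat.eq_of_mul_eq_mul_right hg this
    have hbb1 : b1 ≤ b := by rw [hb1]; exact Nat.le_mul_of_pos_right _ hg
    have hb1m : b1 ∣ m := hcop.dvd_of_dvd_mul_left ⟨sigma 1 m, h'.symm⟩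
    have hb1o : Odd b1 := Odd.of_dvd_nat hm hb1m
    have hlt : b1 < c1 := by
      have h2 : b1 * m < c1 * m := by
        rw [← h']; exact Nat.mul_lt_mul_of_pos_left (sig_gt hm1) hb1pos
      exact lt_of_mul_lt_mul_right h2 (Nat.zero_le _)
    have hP : ∀ p ∈ m.primeFactors, p.Prime ∧ Odd p := fun p hp =>
      ⟨Nat.prime_of_mem_primeFactors hp, Odd.of_dvd_nat hm (Nat.dvd_of_mem_primeFactors hp)⟩
    have hltP : c1 * ∏ p ∈ m.primeFactors, (p - 1) < b1 * ∏ p ∈ m.primeFactors, p := by
      have h1 := sig_lt hm1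
      have h2 : m * (c1 * ∏ p ∈ m.primeFactors, (p - 1)) <
          m * (b1 * ∏ p ∈ m.primeFactors, p) := by
        calc m * (c1 * ∏ p ∈ m.primeFactors, (p - 1))
            = (c1 * m) * ∏ p ∈ m.primeFactors, (p - 1) := by ring
          _ = b1 * (sigma 1 m * ∏ p ∈ m.primeFactors, (p - 1)) := by rw [← h']; ring
          _ < b1 * (m * ∏ p ∈ m.primeFactors, p) := Nat.mul_lt_mul_of_pos_left h1 hb1pos
          _ = m * (b1 * ∏ p ∈ m.primeFactors, p) := by ring
      exact lt_of_mul_lt_mul_left h2 (Nat.zero_le _)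
    obtain ⟨z, hz⟩ : ∃ z, z = 2 * k * b1 + 1 := ⟨_, rfl⟩
    obtain ⟨Q, hQ, hQ1, hQ2⟩ := grow k b1 c1 z m.primeFactors hP (by omega) hb1o hz hltP
      m.primeFactors.card ∅ (empty_subset _) (by simp) (by simpa using hlt)
    have hQne : Q.Nonempty := by
      rw [nonempty_iff_ne_empty]
      rintro rfl
      simp at hQ1
      omega
    obtain ⟨p, hpQ, hpe⟩ := pick m k b1 c1 Q hm0 hb1pos hQ hQne
      ((card_le_card hQ).trans (by omega)) h' hQ1
    have hpm := hQ hpQ
    obtain ⟨hpp, hpo⟩ := hP p hpm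
    set u := ∏ p ∈ Q, p with hu
    have hupos : 0 < u := prod_pos fun p' hp' => (hP p' (hQ hp')).1.pos
    have hz1 : 1 ≤ z := by omega
    have hzu : z * u ≤ z ^ (2 ^ k) := by
      refine hQ2.trans ?_
      rw [prod_empty, mul_one]
      exact Nat.pow_le_pow_right hz1 (Nat.pow_le_pow_right (by norm_num) (by omega))
    -- split off the power
    obtain ⟨q, hq⟩ : ∃ q, q = p ^ m.factorization p := ⟨_, rfl⟩
    obtain ⟨m', hm'⟩ : ∃ m', m' = m / p ^ m.factorization p := ⟨_, rfl⟩
    have hqm : q * m' = m := by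
      rw [hq, hm']; exact Nat.ordProj_mul_ordCompl_eq_self m p
    have hcop' : Nat.Coprime q m' := by
      rw [hq, hm']
      exact Nat.Coprime.pow_left _ (Nat.coprime_ordCompl hpp hm0)
    have hqpos : 0 < q := by rw [hq]; exact pow_pos hpp.pos _
    have hqle : q ≤ k * (b1 * u) := by
      refine le_trans ?_ hpe
      rw [hq]
      exact Nat.pow_le_pow_right hpp.pos (by omega)
    have hsq : sigma 1 q ≤ 2 * q := by
      have h1 := sig_pp hpp (m.factorization p)
      rw [← hq, pow_succ, ← hq] at h1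
      have hp2 := hpp.two_le
      obtain ⟨w, hw⟩ : ∃ w, p = w + 1 := ⟨p - 1, by omega⟩
      have hw1 : 1 ≤ w := by omega
      rw [hw, Nat.add_sub_cancel] at h1
      have h2 : sigma 1 q * w ≤ (2 * q) * w := by nlinarith
      exact le_of_mul_le_mul_right h2 (by omega)
    have hsqpos : 0 < sigma 1 q := sigma_pos 1 _ hqpos.ne'
    have hm'odd : Odd m' := Odd.of_dvd_nat hm ⟨q, by rw [← hqm]; ring⟩
    have hm'card : m'.primeFactors.card = j := by
      have h1 : m'.primeFactors = m.primeFactors.erase p := by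
        rw [← Nat.support_factorization, ← Nat.support_factorization, hm',
          Nat.factorization_ordCompl, Finsupp.support_erase]
      rw [h1, card_erase_of_mem hpm, hj]; rfl
    have heq : (b1 * sigma 1 q) * sigma 1 m' = (c1 * q) * m' := by
      have h1 : sigma 1 m = sigma 1 q * sigma 1 m' := by
        rw [← hqm, isMultiplicative_sigma.map_mul_of_coprime hcop']
      calc (b1 * sigma 1 q) * sigma 1 m' = b1 * (sigma 1 q * sigma 1 m') := by ring
        _ = c1 * (q * m') := by rw [← h1, h', hqm]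
        _ = (c1 * q) * m' := by ring
    have hih := ih m' (b1 * sigma 1 q) (c1 * q) hm'odd (Nat.mul_pos hb1pos hsqpos) hm'card
      (by omega) heq
    have hz' : 2 * k * (b1 * sigma 1 q) + 1 ≤ z ^ (2 ^ (k + 1)) := by
      have h1 : 2 * k * (b1 * sigma 1 q) ≤ (2 * k * b1) ^ 2 * u := by
        calc 2 * k * (b1 * sigma 1 q) ≤ 2 * k * (b1 * (2 * (k * (b1 * u)))) := by
              apply Nat.mul_le_mul_left
              apply Nat.mul_le_mul_left
              omega
          _ = (2 * k * b1) ^ 2 * u := by ring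
      have h2 : (2 * k * b1) ^ 2 * u + 1 ≤ z * (z * u) := by
        rw [hz]
        nlinarith [Nat.zero_le (2 * k * b1)]
      calc 2 * k * (b1 * sigma 1 q) + 1 ≤ z * (z * u) := by omega
        _ ≤ z * z ^ (2 ^ k) := Nat.mul_le_mul_left _ hzu
        _ = z ^ (2 ^ k + 1) := by rw [pow_succ]; ring
        _ ≤ z ^ (2 ^ (k + 1)) := by
            apply Nat.pow_le_pow_right hz1
            have : 1 ≤ 2 ^ k := Nat.one_le_two_pow
            rw [pow_succ]; omega
    have hA : 1 ≤ (2 ^ (k + 3)) ^ j := Nat.one_le_pow _ _ (by positivity)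
    have hfin : m ≤ z ^ ((2 ^ (k + 3)) ^ (j + 1)) := by
      calc m = q * m' := hqm.symm
        _ ≤ (z * u) * (z ^ (2 ^ (k + 1))) ^ ((2 ^ (k + 3)) ^ j) := by
            apply Nat.mul_le_mul
            · refine hqle.trans ?_
              rw [hz]
              nlinarith [Nat.zero_le (k * b1 * u)]
            · exact hih.trans (Nat.pow_le_pow_left hz' _)
        _ ≤ z ^ (2 ^ k) * (z ^ (2 ^ (k + 1))) ^ ((2 ^ (k + 3)) ^ j) :=
            Nat.mul_le_mul_right _ hzu
        _ = z ^ (2 ^ k + 2 ^ (k + 1) * (2 ^ (k + 3)) ^ j) := by rw [← pow_mul, ← pow_add]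
        _ ≤ z ^ ((2 ^ (k + 3)) ^ (j + 1)) := by
            apply Nat.pow_le_pow_right hz1
            have e1 : 2 ^ (k + 1) = 2 * 2 ^ k := by rw [pow_succ]; ring
            have e2 : (2 ^ (k + 3)) ^ (j + 1) = (8 * 2 ^ k) * (2 ^ (k + 3)) ^ j := by
              rw [pow_succ, mul_comm]
              congr 1
              rw [pow_add]; ring
            rw [e1, e2]
            have : 0 < 2 ^ k := by positivity
            nlinarith
    refine hfin.trans (Nat.pow_le_pow_left ?_ _)
    rw [hz]
    have := Nat.mul_le_mul_left (2 * k) hbb1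
    omega

/-- The same bound with the number of prime factors at most `k`. -/
theorem odd_bound' (k m b c : ℕ) (hm : Odd m) (hb : 0 < b) (hk : m.primeFactors.card ≤ k)
    (h : b * sigma 1 m = c * m) : m ≤ (2 * k * b + 1) ^ ((2 ^ (k + 3)) ^ k) := by
  refine (odd_bound k _ m b c hm hb rfl hk h).trans ?_
  apply Nat.pow_le_pow_right (by omega)
  exact Nat.pow_le_pow_right (by positivity) hk

end Pool.AbDec
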