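import Mathlib
import Pool.Agent.Lib.MP_d1482d_nt.OddBound3
import Pool.Agent.Lib.MP_d1482d_nt.Defs

/-!
A bound for the number of prime factors of `n` with `b * σ(n) = a * n`.
-/

set_option autoImplicit false

open Finset ArithmeticFunction

namespace Pool.AbDec

theorem sig_dvd {q r e : ℕ} (hr : r.Prime) (h1 : q ∣ r - 1) (h2 : q ∣ e + 1) :
    q ∣ sigma 1 (r ^ e) := by
  rw [sigma_one_apply_prime_pow hr]
  have h3 : (1 : ℕ) ≡ r [MOD q] := (Nat.modEq_iff_dvd' hr.one_lt.le).mpr h1
  have h4 : ∑ k ∈ range (e + 1), r ^ k ≡ ∑ k ∈ range (e + 1), 1 [MOD q] := by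
    apply Nat.ModEq.sum
    intro i _
    have := (h3.symm.pow i)
    rwa [one_pow] at this
  rw [sum_const, card_range, smul_eq_mul, mul_one] at h4
  exact (Nat.ModEq.dvd_iff h4 dvd_rfl).mpr h2

theorem exists_one_mod {q r e : ℕ} (hq : q.Prime) (hr : r.Prime) (h1 : ¬ q ∣ r - 1)
    (h2 : q ∣ e + 1) : ∃ s, s.Prime ∧ s ∣ sigma 1 (r ^ e) ∧ q ∣ s - 1 := by
  have hr1 := hr.one_lt
  have hPhi : (∑ i ∈ range q, r ^ i) * (r - 1) = r ^ q - 1 := by
    obtain ⟨x, hx⟩ : ∃ x, r = x + 1 := ⟨r - 1, by omega⟩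
    subst hx
    rw [Nat.add_sub_cancel, ← geom_sum_mul_add x q, Nat.add_sub_cancel]
  have hdvd : (∑ i ∈ range q, r ^ i) ∣ sigma 1 (r ^ e) := by
    have h3 : (∑ i ∈ range q, r ^ i) * (r - 1) ∣ sigma 1 (r ^ e) * (r - 1) := by
      rw [hPhi]
      have h4 : sigma 1 (r ^ e) * (r - 1) = r ^ (e + 1) - 1 := by
        have := sig_pp hr e
        omega
      rw [h4]
      obtain ⟨t, ht⟩ := h2
      rw [ht, pow_mul]
      have := Nat.sub_dvd_pow_sub_pow (r ^ q) 1 t
      rwa [one_pow] at this
    exact Nat.dvd_of_mul_dvd_mul_right (by omega) h3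
  have hne : (∑ i ∈ range q, r ^ i) ≠ 1 := by
    have h3 : ∑ i ∈ range 2, r ^ i ≤ ∑ i ∈ range q, r ^ i :=
      sum_le_sum_of_subset (range_subset_range.mpr hq.two_le)
    rw [sum_range_succ, sum_range_one, pow_zero, pow_one] at h3
    omega
  obtain ⟨s, hs, hsd⟩ := Nat.exists_prime_and_dvd hne
  refine ⟨s, hs, hsd.trans hdvd, ?_⟩
  haveI : Fact s.Prime := ⟨hs⟩
  haveI : Fact q.Prime := ⟨hq⟩
  have h5 : (∑ i ∈ range q, (r : ZMod s) ^ i) = 0 := by
    have := (ZMod.natCast_eq_zero_iff _ s).mpr hsd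
    push_cast at this
    exact this
  have hpow : (r : ZMod s) ^ q = 1 := by
    have h6 : s ∣ r ^ q - 1 := by rw [← hPhi]; exact Dvd.dvd.mul_right hsd _
    have h7 := (ZMod.natCast_eq_zero_iff _ s).mpr h6
    rw [Nat.cast_sub (Nat.one_le_pow _ _ hr.pos)] at h7
    push_cast at h7
    exact sub_eq_zero.mp h7
  have hne1 : (r : ZMod s) ≠ 1 := by
    intro hcon
    rw [hcon] at h5
    simp only [one_pow, sum_const, card_range, nsmul_eq_mul, mul_one] at h5
    have h6 : s ∣ q := (ZMod.natCast_eq_zero_iff _ s).mp h5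
    have h7 : s = q := (Nat.prime_dvd_prime_iff_eq hs hq).mp h6
    subst h7
    apply h1
    have h8 : ((r - 1 : ℕ) : ZMod s) = 0 := by
      rw [Nat.cast_sub hr1.le, hcon]; simp
    exact (ZMod.natCast_eq_zero_iff _ s).mp h8
  have hord : orderOf (r : ZMod s) = q := orderOf_eq_prime hpow hne1
  have hr0 : (r : ZMod s) ≠ 0 := by
    intro hcon
    rw [hcon, zero_pow hq.ne_zero] at hpow
    exact zero_ne_one hpow
  have := ZMod.orderOf_dvd_card_sub_one hr0
  rwa [hord] at this

theorem card_le_val {n q : ℕ} (hq : q.Prime) (hn : n ≠ 0) (T : Finset ℕ)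
    (hT : T ⊆ n.primeFactors) (h : ∀ r ∈ T, q ∣ sigma 1 (r ^ n.factorization r)) :
    T.card ≤ (sigma 1 n).factorization q := by
  have hs : sigma 1 n ≠ 0 := (sigma_pos 1 n hn).ne'
  rw [← Nat.Prime.pow_dvd_iff_le_factorization hq hs]
  rw [sig_prod hn]
  refine Dvd.dvd.trans ?_ (prod_dvd_prod_of_subset _ _ _ hT)
  rw [← prod_const]
  exact prod_dvd_prod_of_dvd _ _ h

theorem val_le {n a b : ℕ} (hn : n ≠ 0) (hb : 0 < b) (h : b * sigma 1 n = a * n) (q : ℕ) :
    a ≠ 0 ∧ (sigma 1 n).factorization q ≤ a.factorization q + n.factorization q := by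
  have hs : sigma 1 n ≠ 0 := (sigma_pos 1 n hn).ne'
  have ha : a ≠ 0 := by
    rintro rfl
    rw [zero_mul] at h
    rcases Nat.mul_eq_zero.mp h with h0 | h0
    · omega
    · exact hs h0
  refine ⟨ha, ?_⟩
  have h1 : (b * sigma 1 n).factorization q = (a * n).factorization q := by rw [h]
  rw [Nat.factorization_mul hb.ne' hs, Nat.factorization_mul ha hn] at h1
  simp only [Finsupp.coe_add, Pi.add_apply] at h1
  omega

theorem sum_fact_le {a : ℕ} (ha : a ≠ 0) (I : Finset ℕ) : ∑ s ∈ I, a.factorization s ≤ a := by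
  have h1 : ∑ s ∈ I, a.factorization s ≤ ∑ s ∈ a.primeFactors, a.factorization s := by
    rw [← sum_filter_of_ne (s := I) (p := fun s => s ∈ a.primeFactors)]
    · apply sum_le_sum_of_subset
      intro s hs
      exact (mem_filter.mp hs).2
    · intro s _ hs
      rw [← Nat.support_factorization, Finsupp.mem_support_iff]
      exact hs
  refine h1.trans ?_
  have h2 : 2 ^ (∑ s ∈ a.primeFactors, a.factorization s) ≤ a := by
    rw [← prod_pow_eq_pow_sum]
    conv_rhs => rw [self_prod ha]
    apply prod_le_prod'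
    intro s hs
    exact Nat.pow_le_pow_left (Nat.prime_of_mem_primeFactors hs).two_le _
  exact (Nat.lt_two_pow_self).le.trans h2

/-- Primes `r ≡ 1 (mod q)` whose exponent plus one is divisible by `q`. -/
theorem card_one {n a b q E : ℕ} (hq : q.Prime) (hn : n ≠ 0) (hb : 0 < b)
    (h : b * sigma 1 n = a * n) (hE : n.factorization q ≤ E) :
    (n.primeFactors.filter (fun r => q ∣ n.factorization r + 1 ∧ q ∣ r - 1)).card ≤ a + E := by
  have h1 := card_le_val hq hn (n.primeFactors.filter
    (fun r => q ∣ n.factorization r + 1 ∧ q ∣ r - 1)) (filter_subset _ _) (by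
      intro r hr
      rw [mem_filter] at hr
      exact sig_dvd (Nat.prime_of_mem_primeFactors hr.1) hr.2.2 hr.2.1)
  obtain ⟨ha, h2⟩ := val_le hn hb h q
  have h3 := Nat.factorization_lt q ha
  omega

/-- Primes `r ≢ 1 (mod q)` whose exponent plus one is divisible by `q`. -/
theorem card_not_one {n a b q E : ℕ} (hq : q.Prime) (hn : n ≠ 0) (hb : 0 < b)
    (h : b * sigma 1 n = a * n) (hE : ∀ p, p.Prime → q ∣ p - 1 → n.factorization p ≤ E) :
    (n.primeFactors.filter (fun r => q ∣ n.factorization r + 1 ∧ ¬ q ∣ r - 1)).card ≤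
      a + E * (n.primeFactors.filter (fun s => q ∣ s - 1)).card := by
  set T := n.primeFactors.filter (fun r => q ∣ n.factorization r + 1 ∧ ¬ q ∣ r - 1) with hT
  have hex : ∀ r ∈ T, ∃ s, s.Prime ∧ s ∣ sigma 1 (r ^ n.factorization r) ∧ q ∣ s - 1 := by
    intro r hr
    rw [hT, mem_filter] at hr
    exact exists_one_mod hq (Nat.prime_of_mem_primeFactors hr.1) hr.2.2 hr.2.1
  choose! f hf using hex
  have ha : a ≠ 0 := (val_le hn hb h 2).1
  rw [card_eq_sum_card_image f T]
  have h1 : ∀ s ∈ T.image f, (T.filter (fun r => f r = s)).card ≤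
      a.factorization s + n.factorization s := by
    intro s hs
    obtain ⟨r, hr, rfl⟩ := mem_image.mp hs
    refine (card_le_val (hf r hr).1 hn _ ?_ ?_).trans (val_le hn hb h _).2
    · intro x hx
      exact (mem_filter.mp (mem_filter.mp hx).1).1
    · intro x hx
      obtain ⟨hx1, hx2⟩ := mem_filter.mp hx
      rw [← hx2]
      exact (hf x hx1).2.1
  refine (sum_le_sum h1).trans ?_
  rw [sum_add_distrib]
  apply Nat.add_le_add (sum_fact_le ha _)
  rw [← sum_filter_of_ne (s := T.image f) (p := fun s => s ∈ n.primeFactors)]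
  · have h2 : ∀ s ∈ (T.image f).filter (fun s => s ∈ n.primeFactors), n.factorization s ≤ E := by
      intro s hs
      obtain ⟨r, hr, rfl⟩ := mem_image.mp (mem_filter.mp hs).1
      exact hE _ (hf r hr).1 (hf r hr).2.2
    refine (sum_le_card_nsmul _ _ _ h2).trans ?_
    rw [smul_eq_mul, mul_comm]
    apply Nat.mul_le_mul_left
    apply card_le_card
    intro s hs
    obtain ⟨hs1, hs2⟩ := mem_filter.mp hs
    obtain ⟨r, hr, rfl⟩ := mem_image.mp hs1
    exact mem_filter.mpr ⟨hs2, (hf r hr).2.2⟩
  · intro s _ hs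
    rw [← Nat.support_factorization, Finsupp.mem_support_iff]
    exact hs

/-- The number of prime factors `r` of `n` with `q ∣ v_r(n) + 1`. -/
def sN (n q : ℕ) : ℕ := (n.primeFactors.filter (fun r => q ∣ n.factorization r + 1)).card

/-- The constant of the recursion. -/
def cN (a E K : ℕ) : ℕ := 2 * a + E + 1 + E * (K + a + E)

theorem step_bound {L : List ℕ} {E K n a b : ℕ} (hC : Cls L E K n) (hb : 0 < b)
    (h : b * sigma 1 n = a * n) (i : ℕ) (hi : i < L.length) :
    sN n (L.getD i 0) ≤ cN a E K + E * ∑ j ∈ range i, sN n (L.getD j 0) := by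
  have hn : n ≠ 0 := hC.pos.ne'
  obtain ⟨q, hqdef⟩ : ∃ q, q = L.getD i 0 := ⟨_, rfl⟩
  have hqL : q ∈ L := by
    rw [hqdef, List.getD_eq_getElem _ _ hi]; exact List.getElem_mem hi
  have hq := hC.primes q hqL
  rw [← hqdef]
  have hqE : n.factorization q ≤ E := hC.bdd q hq (Or.inl hqL)
  have hone := card_one hq hn hb h hqE
  by_cases h2 : q = 2
  · -- `q = 2`
    have h3 : sN n q ≤
        (n.primeFactors.filter (fun r => q ∣ n.factorization r + 1 ∧ q ∣ r - 1)).card + 1 := by
      have h4 : n.primeFactors.filter (fun r => q ∣ n.factorization r + 1) ⊆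
          insert 2 (n.primeFactors.filter (fun r => q ∣ n.factorization r + 1 ∧ q ∣ r - 1)) := by
        intro r hr
        rw [mem_filter] at hr
        rw [mem_insert, mem_filter]
        rcases (Nat.prime_of_mem_primeFactors hr.1).eq_two_or_odd' with h5 | h5
        · exact Or.inl h5
        · right
          refine ⟨hr.1, hr.2, ?_⟩
          rw [h2]
          obtain ⟨t, ht⟩ := h5
          exact ⟨t, by omega⟩
      exact (card_le_card h4).trans (card_insert_le _ _)
    unfold cN
    have h5 : 0 ≤ E * ∑ j ∈ range i, sN n (L.getD j 0) := Nat.zero_le _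
    have h6 : 0 ≤ E * (K + a + E) := Nat.zero_le _
    omega
  · have hnot := card_not_one (E := E) hq hn hb h (fun p hp hqp =>
      hC.bdd p hp (Or.inr ⟨q, hqL, h2, hqp⟩))
    have hsplit : sN n q =
        (n.primeFactors.filter (fun r => q ∣ n.factorization r + 1 ∧ q ∣ r - 1)).card +
        (n.primeFactors.filter (fun r => q ∣ n.factorization r + 1 ∧ ¬ q ∣ r - 1)).card := by
      unfold sN
      rw [← card_filter_add_card_filter_not (s := n.primeFactors.filter
        (fun r => q ∣ n.factorization r + 1)) (fun r => q ∣ r - 1), filter_filter, filter_filter]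
    -- primes congruent to one modulo `q`
    have hW : (n.primeFactors.filter (fun s => q ∣ s - 1)).card ≤
        K + (∑ j ∈ range i, sN n (L.getD j 0)) + (a + E) := by
      have hsub : n.primeFactors.filter (fun s => q ∣ s - 1) ⊆
          (n.primeFactors.filter (fun r => ¬ Tame L r (n.factorization r + 1))) ∪
          ((range i).biUnion (fun j => n.primeFactors.filter
            (fun r => L.getD j 0 ∣ n.factorization r + 1))) ∪
          (n.primeFactors.filter (fun r => q ∣ n.factorization r + 1 ∧ q ∣ r - 1)) := by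
        intro s hs
        obtain ⟨hs1, hs2⟩ := mem_filter.mp hs
        rw [mem_union, mem_union, mem_filter, mem_biUnion, mem_filter]
        by_cases ht : Tame L s (n.factorization s + 1)
        · obtain ⟨i', hi', hd, hj⟩ := ht
          rcases lt_trichotomy i' i with h3 | h3 | h3
          · exact Or.inl (Or.inr ⟨i', mem_range.mpr h3, mem_filter.mpr ⟨hs1, hd⟩⟩)
          · subst h3
            rw [← hqdef] at hd
            exact Or.inr ⟨hs1, hd, hs2⟩
          · rcases hj i h3 with h4 | h4
            · exact absurd (hqdef.trans h4) h2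
            · rw [← hqdef] at h4; exact absurd hs2 h4
        · exact Or.inl (Or.inl ⟨hs1, ht⟩)
      refine (card_le_card hsub).trans ((card_union_le _ _).trans ?_)
      apply Nat.add_le_add _ hone
      refine (card_union_le _ _).trans ?_
      apply Nat.add_le_add hC.few
      exact card_biUnion_le
    rw [hsplit]
    have h5 := Nat.mul_le_mul_left E hW
    unfold cN
    have h6 : E * (K + (∑ j ∈ range i, sN n (L.getD j 0)) + (a + E)) =
      E * (K + a + E) + E * (∑ j ∈ range i, sN n (L.getD j 0)) := by ring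
    omega

theorem prefix_bound {L : List ℕ} {E K n a b : ℕ} (hC : Cls L E K n) (hb : 0 < b)
    (h : b * sigma 1 n = a * n) : ∀ i, i ≤ L.length →
    ∑ j ∈ range i, sN n (L.getD j 0) ≤ cN a E K * (E + 2) ^ i := by
  intro i
  induction i with
  | zero => intro _; simp
  | succ i ih =>
    intro hi
    have h1 := ih (by omega)
    have h2 := step_bound hC hb h i (by omega)
    rw [sum_range_succ]
    set T := ∑ j ∈ range i, sN n (L.getD j 0)
    have h3 : 1 ≤ (E + 2) ^ i := Nat.one_le_pow _ _ (by omega)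
    have h4 : cN a E K ≤ cN a E K * (E + 2) ^ i := Nat.le_mul_of_pos_right _ h3
    calc T + sN n (L.getD i 0) ≤ T + (cN a E K + E * T) := by omega
      _ = cN a E K + (E + 1) * T := by ring
      _ ≤ cN a E K * (E + 2) ^ i + (E + 1) * (cN a E K * (E + 2) ^ i) :=
          Nat.add_le_add h4 (Nat.mul_le_mul_left _ h1)
      _ = cN a E K * (E + 2) ^ (i + 1) := by rw [pow_succ]; ring

/-- The bound for the number of prime factors. -/
def kN (l E K a : ℕ) : ℕ := K + cN a E K * (E + 2) ^ l

theorem omega_bound {L : List ℕ} {E K n a b : ℕ} (hC : Cls L E K n) (hb : 0 < b)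
    (h : b * sigma 1 n = a * n) : n.primeFactors.card ≤ kN L.length E K a := by
  have hsub : n.primeFactors ⊆
      (n.primeFactors.filter (fun r => ¬ Tame L r (n.factorization r + 1))) ∪
      ((range L.length).biUnion (fun j => n.primeFactors.filter
        (fun r => L.getD j 0 ∣ n.factorization r + 1))) := by
    intro s hs
    rw [mem_union, mem_filter, mem_biUnion]
    by_cases ht : Tame L s (n.factorization s + 1)
    · obtain ⟨i', hi', hd, hj⟩ := ht
      exact Or.inr ⟨i', mem_range.mpr hi', mem_filter.mpr ⟨hs, hd⟩⟩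
    · exact Or.inl ⟨hs, ht⟩
  refine (card_le_card hsub).trans ((card_union_le _ _).trans ?_)
  unfold kN
  apply Nat.add_le_add hC.few
  exact card_biUnion_le.trans (prefix_bound hC hb h L.length le_rfl)

end Pool.AbDec
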