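import Mathlib
import Pool.Agent.Lib.MP_d1482d_nt.Count
import Pool.Agent.Lib.MP_d1482d_nt.Comp

/-!
Decidability of the abundancy values taken on the classes `Cls`.
-/

set_option autoImplicit false

open ArithmeticFunction

namespace Pool.AbDec

/-- The search bound. -/
def BN (l E K a b : ℕ) : ℕ :=
  2 ^ E * (2 * kN l E K a * (b * 2 ^ (E + 1)) + 1) ^ ((2 ^ (kN l E K a + 3)) ^ kN l E K a)

theorem final_bound {L : List ℕ} {E K n a b : ℕ} (hC : Cls L E K n) (h2 : 2 ∈ L) (hb : 0 < b)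
    (h : b * sigma 1 n = a * n) : n ≤ BN L.length E K a b := by
  have hn : n ≠ 0 := hC.pos.ne'
  have hom := omega_bound hC hb h
  have htE : n.factorization 2 ≤ E := hC.bdd 2 Nat.prime_two (Or.inl h2)
  obtain ⟨t, ht⟩ : ∃ t, t = n.factorization 2 := ⟨_, rfl⟩
  obtain ⟨m, hm⟩ : ∃ m, m = n / 2 ^ n.factorization 2 := ⟨_, rfl⟩
  have hnm : 2 ^ t * m = n := by
    rw [ht, hm]; exact Nat.ordProj_mul_ordCompl_eq_self n 2
  have hcop : Nat.Coprime (2 ^ t) m := by
    rw [hm]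
    exact Nat.Coprime.pow_left _ (Nat.coprime_ordCompl Nat.prime_two hn)
  have hodd : Odd m := by
    rw [hm]
    rw [← Nat.not_even_iff_odd, even_iff_two_dvd]
    exact Nat.not_dvd_ordCompl Nat.prime_two hn
  have hsub : m.primeFactors ⊆ n.primeFactors :=
    Nat.primeFactors_mono ⟨2 ^ t, by rw [← hnm]; ring⟩ hn
  have hk : m.primeFactors.card ≤ kN L.length E K a := (Finset.card_le_card hsub).trans hom
  have hs2 : sigma 1 (2 ^ t) ≤ 2 ^ (E + 1) := by
    have h1 := sig_pp Nat.prime_two t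
    have h3 : 2 ^ (t + 1) ≤ 2 ^ (E + 1) := Nat.pow_le_pow_right (by norm_num) (by omega)
    omega
  have hs2pos : 0 < sigma 1 (2 ^ t) := sigma_pos 1 _ (by positivity)
  have heq : (b * sigma 1 (2 ^ t)) * sigma 1 m = (a * 2 ^ t) * m := by
    have h1 : sigma 1 n = sigma 1 (2 ^ t) * sigma 1 m := by
      rw [← hnm, isMultiplicative_sigma.map_mul_of_coprime hcop]
    calc (b * sigma 1 (2 ^ t)) * sigma 1 m = b * (sigma 1 (2 ^ t) * sigma 1 m) := by ring
      _ = a * (2 ^ t * m) := by rw [← h1, h, hnm]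
      _ = (a * 2 ^ t) * m := by ring
  have hbd := odd_bound' (kN L.length E K a) m (b * sigma 1 (2 ^ t)) (a * 2 ^ t) hodd
    (Nat.mul_pos hb hs2pos) hk heq
  unfold BN
  calc n = 2 ^ t * m := hnm.symm
    _ ≤ 2 ^ E * (2 * kN L.length E K a * (b * 2 ^ (E + 1)) + 1) ^
        ((2 ^ (kN L.length E K a + 3)) ^ kN L.length E K a) := by
      apply Nat.mul_le_mul
      · exact Nat.pow_le_pow_right (by norm_num) (by omega)
      · refine hbd.trans (Nat.pow_le_pow_left ?_ _)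
        have h3 := Nat.mul_le_mul_left (2 * kN L.length E K a) (Nat.mul_le_mul_left b hs2)
        omega

theorem pr_BN : Primrec (fun x : ℕ × ℕ × ℕ × ℕ × ℕ => BN x.1 x.2.1 x.2.2.1 x.2.2.2.1 x.2.2.2.2) := by
  have pl : Primrec (fun x : ℕ × ℕ × ℕ × ℕ × ℕ => x.1) := Primrec.fst
  have pE : Primrec (fun x : ℕ × ℕ × ℕ × ℕ × ℕ => x.2.1) := Primrec.fst.comp Primrec.snd
  have pK : Primrec (fun x : ℕ × ℕ × ℕ × ℕ × ℕ => x.2.2.1) :=
    Primrec.fst.comp (Primrec.snd.comp Primrec.snd)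
  have pa : Primrec (fun x : ℕ × ℕ × ℕ × ℕ × ℕ => x.2.2.2.1) :=
    Primrec.fst.comp (Primrec.snd.comp (Primrec.snd.comp Primrec.snd))
  have pb : Primrec (fun x : ℕ × ℕ × ℕ × ℕ × ℕ => x.2.2.2.2) :=
    Primrec.snd.comp (Primrec.snd.comp (Primrec.snd.comp Primrec.snd))
  have pc : Primrec (fun x : ℕ × ℕ × ℕ × ℕ × ℕ => cN x.2.2.2.1 x.2.1 x.2.2.1) := by
    unfold cN
    refine Primrec.nat_add.comp (Primrec.nat_add.comp (Primrec.nat_add.comp
      (Primrec.nat_mul.comp (Primrec.const 2) pa) pE) (Primrec.const 1)) ?_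
    exact Primrec.nat_mul.comp pE (Primrec.nat_add.comp (Primrec.nat_add.comp pK pa) pE)
  have pk : Primrec (fun x : ℕ × ℕ × ℕ × ℕ × ℕ => kN x.1 x.2.1 x.2.2.1 x.2.2.2.1) := by
    unfold kN
    exact Primrec.nat_add.comp pK (Primrec.nat_mul.comp pc
      (pr_pow.comp (Primrec.nat_add.comp pE (Primrec.const 2)) pl))
  unfold BN
  refine Primrec.nat_mul.comp (pr_pow.comp (Primrec.const 2) pE) (pr_pow.comp ?_ ?_)
  · refine Primrec.nat_add.comp ?_ (Primrec.const 1)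
    exact Primrec.nat_mul.comp (Primrec.nat_mul.comp (Primrec.const 2) pk)
      (Primrec.nat_mul.comp pb (pr_pow.comp (Primrec.const 2)
        (Primrec.nat_add.comp pE (Primrec.const 1))))
  · exact pr_pow.comp (pr_pow.comp (Primrec.const 2)
      (Primrec.nat_add.comp pk (Primrec.const 3))) pk

theorem cp_and {α : Type*} [Primcodable α] {p q : α → Prop} (hp : ComputablePred p)
    (hq : ComputablePred q) : ComputablePred (fun a => p a ∧ q a) := by
  rw [ComputablePred.computable_iff] at *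
  obtain ⟨f, hf, rfl⟩ := hp
  obtain ⟨g, hg, rfl⟩ := hq
  refine ⟨fun a => f a && g a, Primrec.and.to_comp.comp hf hg, ?_⟩
  funext a
  simp

theorem cp_comp {α β : Type*} [Primcodable α] [Primcodable β] {p : β → Prop} {f : α → β}
    (hp : ComputablePred p) (hf : Computable f) : ComputablePred (fun a => p (f a)) := by
  rw [ComputablePred.computable_iff] at *
  obtain ⟨g, hg, rfl⟩ := hp
  exact ⟨fun a => g (f a), hg.comp hf, rfl⟩

theorem ratio_iff {n a b : ℕ} (hn : 0 < n) :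
    ((sigma 1 n : ℕ) : ℚ) / (n : ℚ) = (a : ℚ) / (b : ℚ) ↔ 0 < b ∧ b * sigma 1 n = a * n := by
  have hs : 0 < sigma 1 n := sigma_pos 1 n hn.ne'
  have hnq : (n : ℚ) ≠ 0 := by exact_mod_cast hn.ne'
  constructor
  · intro h
    have hb : 0 < b := by
      rcases Nat.eq_zero_or_pos b with h0 | h0
      · subst h0
        rw [Nat.cast_zero, div_zero] at h
        have : (0 : ℚ) < ((sigma 1 n : ℕ) : ℚ) / (n : ℚ) := by
          apply div_pos
          · exact_mod_cast hs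
          · exact_mod_cast hn
        rw [h] at this
        exact absurd this (lt_irrefl _)
      · exact h0
    refine ⟨hb, ?_⟩
    have hbq : (b : ℚ) ≠ 0 := by exact_mod_cast hb.ne'
    rw [div_eq_div_iff hnq hbq] at h
    have h1 : ((sigma 1 n * b : ℕ) : ℚ) = ((a * n : ℕ) : ℚ) := by push_cast; exact h
    have h2 : sigma 1 n * b = a * n := by exact_mod_cast h1
    rw [mul_comm]; exact h2
  · rintro ⟨hb, h⟩
    have hbq : (b : ℚ) ≠ 0 := by exact_mod_cast hb.ne'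
    rw [div_eq_div_iff hnq hbq]
    have : ((b * sigma 1 n : ℕ) : ℚ) = ((a * n : ℕ) : ℚ) := by rw [h]
    push_cast at this
    linarith

/-- The decidability theorem. -/
theorem main (G : ℕ → Prop) (hG : ComputablePred G) :
    ComputablePred (fun x : (ℕ × ℕ) × (List ℕ × ℕ × ℕ) =>
      ∃ n : ℕ, G n ∧ Cls (2 :: x.2.1) x.2.2.1 x.2.2.2 n ∧
        ((sigma 1 n : ℕ) : ℚ) / (n : ℚ) = (x.1.1 : ℚ) / (x.1.2 : ℚ)) := by
  have hB : Primrec (fun x : (ℕ × ℕ) × (List ℕ × ℕ × ℕ) =>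
      BN ((2 :: x.2.1).length) x.2.2.1 x.2.2.2 x.1.1 x.1.2 + 1) := by
    refine Primrec.succ.comp (pr_BN.comp (g := fun x : (ℕ × ℕ) × (List ℕ × ℕ × ℕ) =>
      ((2 :: x.2.1).length, x.2.2.1, x.2.2.2, x.1.1, x.1.2)) ?_)
    refine Primrec.pair ?_ (Primrec.pair ?_ (Primrec.pair ?_ (Primrec.pair ?_ ?_)))
    · exact Primrec.list_length.comp (Primrec.list_cons.comp (Primrec.const 2)
        (Primrec.fst.comp Primrec.snd))
    · exact Primrec.fst.comp (Primrec.snd.comp Primrec.snd)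
    · exact Primrec.snd.comp (Primrec.snd.comp Primrec.snd)
    · exact Primrec.fst.comp Primrec.fst
    · exact Primrec.snd.comp Primrec.fst
  have hR : ComputablePred (fun y : ((ℕ × ℕ) × (List ℕ × ℕ × ℕ)) × ℕ =>
      G y.2 ∧ (Cls (2 :: y.1.2.1) y.1.2.2.1 y.1.2.2.2 y.2 ∧
        (0 < y.1.1.2 ∧ y.1.1.2 * sg y.2 = y.1.1.1 * y.2))) := by
    refine cp_and (cp_comp hG Computable.snd) ?_
    have h1 : PrimrecPred (fun y : ((ℕ × ℕ) × (List ℕ × ℕ × ℕ)) × ℕ =>
        Cls (2 :: y.1.2.1) y.1.2.2.1 y.1.2.2.2 y.2) := by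
      refine pr_cls.comp (f := fun y : ((ℕ × ℕ) × (List ℕ × ℕ × ℕ)) × ℕ =>
        (2 :: y.1.2.1, y.1.2.2.1, y.1.2.2.2, y.2)) ?_
      refine Primrec.pair ?_ (Primrec.pair ?_ (Primrec.pair ?_ ?_))
      · exact Primrec.list_cons.comp (Primrec.const 2)
          (Primrec.fst.comp (Primrec.snd.comp Primrec.fst))
      · exact Primrec.fst.comp (Primrec.snd.comp (Primrec.snd.comp Primrec.fst))
      · exact Primrec.snd.comp (Primrec.snd.comp (Primrec.snd.comp Primrec.fst))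
      · exact Primrec.snd
    have h2 : PrimrecPred (fun y : ((ℕ × ℕ) × (List ℕ × ℕ × ℕ)) × ℕ => 0 < y.1.1.2) :=
      Primrec.nat_lt.comp (Primrec.const 0) (Primrec.snd.comp (Primrec.fst.comp Primrec.fst))
    have h3 : PrimrecPred (fun y : ((ℕ × ℕ) × (List ℕ × ℕ × ℕ)) × ℕ =>
        y.1.1.2 * sg y.2 = y.1.1.1 * y.2) := by
      refine Primrec.eq.comp ?_ ?_
      · exact Primrec.nat_mul.comp (Primrec.snd.comp (Primrec.fst.comp Primrec.fst))
          (pr_sg.comp Primrec.snd)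
      · exact Primrec.nat_mul.comp (Primrec.fst.comp (Primrec.fst.comp Primrec.fst)) Primrec.snd
    obtain ⟨inst, h4⟩ := h1.and (h2.and h3)
    exact ⟨inst, h4.to_comp⟩
  refine (cp_exists_lt (R := fun (x : (ℕ × ℕ) × (List ℕ × ℕ × ℕ)) (n : ℕ) =>
      G n ∧ (Cls (2 :: x.2.1) x.2.2.1 x.2.2.2 n ∧
        (0 < x.1.2 ∧ x.1.2 * sg n = x.1.1 * n))) hR hB.to_comp).of_eq ?_
  intro x
  constructor
  · rintro ⟨n, _, hg, hC, hb, h⟩
    refine ⟨n, hg, hC, (ratio_iff hC.pos).mpr ⟨hb, ?_⟩⟩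
    rwa [sg_eq] at h
  · rintro ⟨n, hg, hC, h⟩
    obtain ⟨hb, h1⟩ := (ratio_iff hC.pos).mp h
    refine ⟨n, ?_, hg, hC, hb, ?_⟩
    · exact Nat.lt_succ_of_le (final_bound hC (by simp) hb h1)
    · rw [sg_eq]; exact h1

end Pool.AbDec
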